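import Pool.Agent.ISO.StmtsR

set_option autoImplicit false

namespace Pool.Agent.ISO.R.H23

open Finset Pool.Agent.Helper6_Mono Pool.Agent.Helper32_OMP Pool.Agent.ISO

theorem li_map {k : Type} [Field k] [Algebra k ℂ] {σ : Type} [Fintype σ] (M : σ → σ → k)
    (h : LinearIndependent k (fun l : σ => fun j : σ => M l j)) :
    LinearIndependent ℂ (fun l : σ => fun j : σ => algebraMap k ℂ (M l j)) := by
  classical
  have h1 : LinearIndependent k (Matrix.of M).row := h
  rw [Matrix.linearIndependent_rows_iff_isUnit, Matrix.isUnit_iff_isUnit_det] at h1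
  have h2 : LinearIndependent ℂ ((algebraMap k ℂ).mapMatrix (Matrix.of M)).row := by
    rw [Matrix.linearIndependent_rows_iff_isUnit, Matrix.isUnit_iff_isUnit_det,
      ← RingHom.map_det]
    exact h1.map (algebraMap k ℂ)
  exact h2

theorem apm : ApmStmt := by
  intro k _ _ σ _ f f1 p hA E
  obtain ⟨ψ, u, h1, h2, h3, h4⟩ := hA E
  refine ⟨fun l => MvPolynomial.map (algebraMap k ℂ) (ψ l), MvPolynomial.map (algebraMap k ℂ) u,
    ?_, ?_, ?_, ?_⟩
  · intro l
    rw [MvPolynomial.constantCoeff_map, h1 l]
  · have h5 := li_map (fun l j : σ => MvPolynomial.coeff (Finsupp.single j 1) (ψ l)) h2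
    have h6 : (fun l : σ => fun j : σ => MvPolynomial.coeff (Finsupp.single j 1)
        (MvPolynomial.map (algebraMap k ℂ) (ψ l))) = fun l : σ => fun j : σ =>
        algebraMap k ℂ (MvPolynomial.coeff (Finsupp.single j 1) (ψ l)) := by
      funext l j
      exact MvPolynomial.coeff_map _ _ _
    rw [h6]
    exact h5
  · rw [MvPolynomial.constantCoeff_map, h3, map_one]
  · intro β hβ
    have h7 : ∀ g : MvPolynomial σ k,
        MvPolynomial.aeval (fun l => MvPolynomial.map (algebraMap k ℂ) (ψ l))
        (MvPolynomial.map (algebraMap k ℂ) g) =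
        MvPolynomial.map (algebraMap k ℂ) (MvPolynomial.aeval ψ g) := by
      intro g
      refine MvPolynomial.induction_on (motive := fun g =>
        MvPolynomial.aeval (fun l => MvPolynomial.map (algebraMap k ℂ) (ψ l))
        (MvPolynomial.map (algebraMap k ℂ) g) =
        MvPolynomial.map (algebraMap k ℂ) (MvPolynomial.aeval ψ g)) g ?_ ?_ ?_
      · intro a
        rw [MvPolynomial.map_C, MvPolynomial.aeval_C, MvPolynomial.aeval_C,
          MvPolynomial.algebraMap_eq, MvPolynomial.algebraMap_eq, MvPolynomial.map_C]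
      · intro a b ha hb
        rw [map_add, map_add, map_add, map_add, ha, hb]
      · intro a i ha
        rw [map_mul, map_mul, map_mul, map_mul, ha, MvPolynomial.map_X, MvPolynomial.aeval_X,
          MvPolynomial.aeval_X]
    rw [h7 f, ← map_mul, ← map_sub, MvPolynomial.coeff_map, h4 β hβ, map_zero]

end Pool.Agent.ISO.R.H23
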